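import Pool.Agent.H.MP_e70507.A

set_option autoImplicit false
open Set Function Topology Filter TopologicalSpace Cardinal

namespace Pool.Agent.H.MP_5e5cb0
open Pool.Agent.H.MP_e70507

variable {β : Type}

inductive Hl (k : Finset β → Set β) (S : Set β) : β → Prop
  | base (a : β) : a ∈ S → Hl k S a
  | step (F : Finset β) (a : β) : (∀ x ∈ F, Hl k S x) → a ∈ k F → Hl k S a

def hull (k : Finset β → Set β) (S : Set β) : Set β := {a | Hl k S a}

section
variable {k : Finset β → Set β}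

lemma hmin {S T : Set β} (h : S ⊆ T) (hT : ∀ F : Finset β, ↑F ⊆ T → k F ⊆ T) : hull k S ⊆ T :=
  fun a ha => by
    induction ha with
    | base a h' => exact h h'
    | step F a _ h' ih => exact hT F ih h'

lemma hcl (S : Set β) (F : Finset β) (h : ↑F ⊆ hull k S) : k F ⊆ hull k S :=
  fun a ha => Hl.step F a h ha

lemma hmono {S T : Set β} (h : S ⊆ T) : hull k S ⊆ hull k T :=
  hmin (fun a ha => .base a (h ha)) (hcl T)

lemma hcnt (hk : ∀ F, (k F).Countable) {S : Set β} (h : S.Countable) : (hull k S).Countable := by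
  obtain ⟨T, h1, -, h2⟩ := close (fun R => S ∪ k R) fun R => h.union (hk R)
  exact h1.mono (hmin (subset_union_left.trans (h2 ∅ (by simp))) fun F hF =>
    subset_union_right.trans (h2 F hF))

lemma hdir {ι : Type} [LinearOrder ι] (e : ι → β) (L : Set ι) (F : Finset β)
    (h : ↑F ⊆ hull k (e '' L)) : ↑F ⊆ hull k ∅ ∨ ∃ i ∈ L, ↑F ⊆ hull k (e '' Iic i) := by
  have A : ∀ F : Finset β, (∀ a ∈ F, a ∈ hull k ∅ ∨ ∃ i ∈ L, a ∈ hull k (e '' Iic i)) →
      ↑F ⊆ hull k ∅ ∨ ∃ i ∈ L, ↑F ⊆ hull k (e '' Iic i) := fun F h => by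
    classical
    induction F using Finset.induction_on with
    | empty => simp
    | insert a F _ ih =>
      simp only [Finset.coe_insert, insert_subset_iff]
      rcases h a (Finset.mem_insert_self _ _) with h1 | ⟨i, hi, h1⟩ <;>
        rcases ih fun b hb => h b (Finset.mem_insert_of_mem hb) with h2 | ⟨j, hj, h2⟩
      · exact Or.inl ⟨h1, h2⟩
      · exact Or.inr ⟨j, hj, hmono (empty_subset _) h1, h2⟩
      · exact Or.inr ⟨i, hi, h1, h2.trans (hmono (empty_subset _))⟩
      · rcases le_total i j with h | h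
        · exact Or.inr ⟨j, hj, hmono (image_mono (Iic_subset_Iic.2 h)) h1, h2⟩
        · exact Or.inr ⟨i, hi, h1, h2.trans (hmono (image_mono (Iic_subset_Iic.2 h)))⟩
  refine A F fun a ha => ?_
  replace ha := h ha
  induction ha with
  | base a h' =>
    obtain ⟨i, hi, rfl⟩ := h'
    exact Or.inr ⟨i, hi, .base _ ⟨i, le_rfl, rfl⟩⟩
  | step G a _ h' ih => exact (A G ih).imp (hcl _ G · h') (Exists.imp fun i => And.imp_right
      (hcl _ G · h'))
end

variable [TopologicalSpace β] [CompactSpace β] [T2Space β] (h : Finset β → Set C(β, ℝ))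

def Φ (S : Set β) : Set C(β, ℝ) := ⋃ F : Finset β, ⋃ _ : ↑F ⊆ S, h F

omit [CompactSpace β] [T2Space β] in
lemma Φm {S T : Set β} (e : S ⊆ T) : Φ h S ⊆ Φ h T :=
  iUnion₂_subset fun F hF => subset_iUnion₂_of_subset F (hF.trans e) le_rfl

lemma fc {α : Type} {S : Set α} (e : S.Countable) : {R : Finset α | ↑R ⊆ S}.Countable :=
  ((countable_ofPred_finite_subset e).preimage_of_injOn (f := fun R : Finset α => (R : Set α))
    Finset.coe_injective.injOn).mono fun R hR => And.intro R.finite_toSet hR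

variable {h} (hc : ∀ F, (h F).Countable)

omit [CompactSpace β] [T2Space β] in
include hc in
lemma Φc {S : Set β} (e : S.Countable) : (Φ h S).Countable :=
  (fc e).biUnion fun F _ => hc F

omit [T2Space β] in
include hc in
lemma appr (A I : Set β) (hI : I.Countable) : ∃ k : Finset β → Set β, (∀ F, (k F).Countable) ∧
    (∀ F, k F ⊆ A) ∧ ∀ S, (∀ F : Finset β, ↑F ⊆ S → k F ⊆ S) → ∀ c ∈ closure A,
      ∃ s ∈ closure S, ∀ φ ∈ Φ h (I ∪ S), φ s = φ c := by
  classical
  let q : ∀ u : Finset C(β, ℝ), β → u → ℝ := fun u b φ => φ.1 b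
  have : ∀ u, ∃ D ⊆ A, D.Countable ∧ q u '' A ⊆ closure (q u '' D) := fun u => by
    obtain ⟨t, t1, t2, t3⟩ := (IsSeparable.of_separableSpace (q u '' A)).exists_countable_dense_subset
    choose w w1 w2 using fun x : t => t1 x.2
    have := t2.to_subtype
    exact ⟨range w, range_subset_iff.2 w1, countable_range _, t3.trans (closure_mono fun x hx =>
      ⟨w ⟨x, hx⟩, mem_range_self _, w2 _⟩)⟩
  choose D d1 d2 d3 using this
  refine ⟨fun F => ⋃ u : Finset C(β, ℝ), ⋃ _ : ↑u ⊆ Φ h (I ∪ F), D u, fun F =>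
    (fc (Φc hc (hI.union F.countable_toSet))).biUnion fun u _ => d2 u,
    fun F => iUnion₂_subset fun u _ => d1 u, fun S hS c hc => ?_⟩
  obtain ⟨s, s1, s2⟩ := isClosed_closure.isCompact.inter_iInter_nonempty (s := closure S)
    (fun φ : Φ h (I ∪ S) => {s | φ.1 s = φ.1 c}) (fun φ => isClosed_eq φ.1.continuous
      continuous_const) fun u => by
      choose G g1 g2 using fun φ : Φ h (I ∪ S) => mem_iUnion₂.1 φ.2
      have c : Continuous (q (u.image (↑))) := continuous_pi fun φ => φ.1.continuous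
      obtain ⟨s, s1, s2⟩ := c.isClosedMap.closure_image_subset _ (closure_closure.le
        (closure_mono (d3 _) (image_closure_subset_closure_image c ⟨_, hc, rfl⟩)))
      refine ⟨s, closure_mono ((subset_iUnion₂_of_subset _ (fun φ hφ => ?_) le_rfl).trans
        (hS ((u.biUnion G).filter (· ∈ S)) fun a ha => (Finset.mem_filter.1 ha).2)) s1,
        mem_iInter₂.2 fun φ hφ => congrFun s2 ⟨φ, Finset.mem_image_of_mem _ hφ⟩⟩
      obtain ⟨ψ, hψ, rfl⟩ := Finset.mem_image.1 hφ
      exact mem_iUnion₂.2 ⟨G ψ, fun a ha => (g1 ψ ha).imp id fun e => Finset.mem_filter.2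
        ⟨Finset.mem_biUnion.2 ⟨ψ, hψ, ha⟩, e⟩, g2 ψ⟩
  exact ⟨s, s1, fun φ hφ => mem_iInter.1 s2 ⟨φ, hφ⟩⟩

variable (hs : ∀ S, ∀ a ∈ closure S, ∀ b ∈ closure S, (∀ φ ∈ Φ h S, φ a = φ b) → a = b)
include hc hs

omit [T2Space β] in
lemma tgt (A : Set β) (c : β) (e : c ∈ closure A) : ∃ T ⊆ A, T.Countable ∧ c ∈ closure T := by
  obtain ⟨k, k1, k2, k3⟩ := appr hc A {c} (countable_singleton c)
  obtain ⟨s, s1, s2⟩ := k3 _ (hcl ∅) c e
  exact ⟨_, hmin (empty_subset _) fun F _ => k2 F, hcnt k1 countable_empty, hs ({c} ∪ _) s (closure_mono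
    subset_union_right s1) c (subset_closure (Or.inl rfl)) s2 ▸ s1⟩

theorem corson : ∃ (Γ : Type) (e : β → Γ → ℝ), IsEmbedding e ∧ ∀ s, (support (e s)).Countable := by
  obtain ⟨k, k1, -, k3⟩ := appr hc univ ∅ countable_empty
  choose r r1 r2 using fun S b => k3 _ (hcl S) b (by simp)
  simp only [empty_union] at r2
  have ru : ∀ S a b, (∀ φ ∈ Φ h (hull k S), φ a = φ b) → r S a = r S b := fun S a b e =>
    hs _ _ (r1 S a) _ (r1 S b) fun φ hφ => (r2 S a φ hφ).trans ((e φ hφ).trans (r2 S b φ hφ).symm)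
  have ri : ∀ S, ∀ a ∈ closure (hull k S), r S a = a := fun S a e =>
    hs _ _ (r1 S a) _ e (r2 S a)
  have rc : ∀ S, Continuous (r S) := fun S => continuous_iff_continuousAt.2 fun b =>
    tendsto_nhds_of_unique_mapClusterPt fun s e => hs _ _ (isClosed_closure.mem_of_mapClusterPt e
      (.of_forall (r1 S))) _ (r1 S b) fun φ hφ => (eq_of_nhds_neBot ((e.continuousAt_comp
        φ.continuous.continuousAt).clusterPt.mono ((φ.continuous.tendsto b).congr fun a =>
          (r2 S a φ hφ).symm))).trans (r2 S b φ hφ).symm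
  suffices ∀ κ : Cardinal, ∀ S : Set β, #S = κ → ∃ Ψ : Set C(β, ℝ), (∀ b,
      {ψ ∈ Ψ | ψ b ≠ 0}.Countable) ∧ ∀ a b, (∀ ψ ∈ Ψ, ψ a = ψ b) → r S a = r S b by
    obtain ⟨Ψ, h1, h2⟩ := this _ univ rfl
    have e : ∀ a, r univ a = a := fun a => ri _ a (subset_closure (.base a trivial))
    exact ⟨Ψ, fun b ψ => ψ.1 b, (Continuous.isClosedEmbedding (continuous_pi fun ψ =>
      ψ.1.continuous) fun a b h => (e a).symm.trans ((h2 a b fun ψ hψ =>
        congrFun h ⟨ψ, hψ⟩).trans (e b))).isEmbedding, fun b => ((h1 b).preimage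
          Subtype.val_injective).mono fun ψ hψ => And.intro ψ.2 hψ⟩
  intro κ
  induction κ using WellFoundedLT.induction with
  | ind κ ih =>
  rintro S rfl
  by_cases hS : S.Countable
  · exact ⟨_, fun b => (Φc hc (hcnt k1 hS)).mono (sep_subset _ _), ru S⟩
  obtain ⟨_, _, ho⟩ := exists_ord_eq_type_lt S
  choose Ψ p1 p2 using fun i : S => ih _ ((mk_image_le (f := Subtype.val)).trans_lt (mk_Iic_lt i ho
    (not_le.1 (le_aleph0_iff_set_countable.not.2 hS)).le)) _ rfl
  let R : Set S → C(β, β) := fun L => ⟨r (Subtype.val '' L), rc _⟩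
  have rr : ∀ L L', L ⊆ L' → ∀ b, R L (R L' b) = R L b := fun L L' e b => ru _ _ _ fun φ hφ =>
    r2 _ b φ (Φm h (hmono (image_mono e)) hφ)
  have dd : ∀ L : Set S, ∀ φ ∈ Φ h (hull k (Subtype.val '' L)), φ ∈ Φ h (hull k ∅) ∨
      ∃ i ∈ L, φ ∈ Φ h (hull k (Subtype.val '' Iic i)) := fun L φ hφ => by
    obtain ⟨F, f1, f2⟩ := mem_iUnion₂.1 hφ
    exact (hdir _ L F f1).imp (mem_iUnion₂.2 ⟨F, ·, f2⟩) (Exists.imp fun i => And.imp_right
      (mem_iUnion₂.2 ⟨F, ·, f2⟩))
  refine ⟨Φ h (hull k ∅) ∪ ⋃ i, (fun ψ => ψ.comp (R (Iic i)) - ψ.comp (R (Iio i))) '' Ψ i,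
    fun b => ?_, fun a b e => ?_⟩
  · have J : {i | R (Iic i) b ≠ R (Iio i) b}.Countable := by
      by_contra hJ
      let L := {j | {i | i ≤ j ∧ R (Iic i) b ≠ R (Iio i) b}.Countable}
      have hL : ¬ {i ∈ L | R (Iic i) b ≠ R (Iio i) b}.Countable := fun e => by
        obtain ⟨m, m1, m2⟩ := wellFounded_lt.has_min {i | i ∉ L ∧ R (Iic i) b ≠ R (Iio i) b}
          (by_contra fun e' => hJ (e.mono fun i hi => And.intro (by_contra fun x => e' ⟨i, x, hi⟩) hi))
        exact m1.1 ((e.insert m).mono fun i hi => hi.1.eq_or_lt.imp id fun x =>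
          And.intro (by_contra fun y => m2 i ⟨y, hi.2⟩ x) hi.2)
      have lo : ∀ i ∈ L, Iic i ⊆ L := fun i hi j hj => Set.Countable.mono
        (fun x hx => And.intro (hx.1.trans hj) hx.2) hi
      obtain ⟨i0, h0⟩ := nonempty_iff_ne_empty.2 fun x => hL (countable_empty.mono x.le)
      obtain ⟨s, s1, s2⟩ := isClosed_closure.isCompact.inter_iInter_nonempty
        (s := closure ((fun i => R (Iic i) b) '' L)) (fun φ : Φ h (hull k (Subtype.val '' L)) =>
          {s | φ.1 s = φ.1 b}) (fun φ => isClosed_eq φ.1.continuous continuous_const) fun u => by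
        classical
        choose i i1 i2 using fun φ : Φ h (hull k (Subtype.val '' L)) => (dd L φ φ.2).elim
          (fun e => (⟨i0, h0.1, Φm h (hmono (empty_subset _)) e⟩ : ∃ i ∈ L,
            φ.1 ∈ Φ h (hull k (Subtype.val '' Iic i)))) id
        obtain ⟨j, j1, j2⟩ := (insert i0 (u.image i)).exists_max_image id (by simp)
        exact ⟨_, subset_closure ⟨j, by
          rcases Finset.mem_insert.1 j1 with rfl | j1
          · exact h0.1
          · obtain ⟨φ, -, rfl⟩ := Finset.mem_image.1 j1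
            exact i1 φ, rfl⟩, mem_iInter₂.2 fun φ hφ => r2 _ b _ (Φm h (hmono (image_mono
              (Iic_subset_Iic.2 (j2 _ (by simp [Finset.mem_image_of_mem i hφ]))))) (i2 φ))⟩
      obtain ⟨T, t1, t2, t3⟩ := tgt hc hs _ s s1
      choose j j1 j2 using fun t : T => t1 t.2
      have := t2.to_subtype
      obtain ⟨i, i1, i2⟩ := not_subset.1 fun x => hL ((countable_iUnion j1).mono x)
      have e : s ∈ closure (hull k (Subtype.val '' Iio i)) := closure_minimal (fun t ht =>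
        closure_mono (hmono (image_mono (Iic_subset_Iio.2 (not_le.1 fun x => i2 (mem_iUnion.2
          ⟨⟨t, ht⟩, x, i1.2⟩))))) (mem_of_eq_of_mem (j2 ⟨t, ht⟩).symm (r1 _ b))) isClosed_closure t3
      have e' : ∀ M ⊆ Iic i, Iio i ⊆ M → R M b = s := fun M m1 m2 => (ru _ _ _ fun φ hφ =>
        (mem_iInter.1 s2 ⟨φ, Φm h (hmono (image_mono (m1.trans (lo i i1.1)))) hφ⟩).symm).trans
          (ri _ s (closure_mono (hmono (image_mono m2)) e))
      exact i1.2 ((e' _ le_rfl Iio_subset_Iic_self).trans (e' _ Iio_subset_Iic_self le_rfl).symm)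
    refine ((Φc hc (hcnt k1 countable_empty)).union (J.biUnion fun i _ => ((p1 i (R (Iic i) b)).union
      (p1 i (R (Iio i) b))).image fun ψ => ψ.comp (R (Iic i)) - ψ.comp (R (Iio i)))).mono ?_
    rintro ψ ⟨e | e, e'⟩
    · exact Or.inl e
    obtain ⟨i, ψ, e0, rfl⟩ := mem_iUnion.1 e
    refine Or.inr (mem_iUnion₂.2 ⟨i, fun x => e' (by simp [x]), ψ, by_contra fun x => e' ?_, rfl⟩)
    simp only [mem_union, mem_sep_iff, e0, true_and, not_or, not_not] at x
    simp [x]
  · have A : ∀ L, (∀ i ∈ L, R (Iic i) a = R (Iic i) b) → R L a = R L b := fun L x =>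
      ru _ _ _ fun φ hφ => (dd L φ hφ).elim (fun y => e φ (Or.inl y)) fun ⟨i, hi, y⟩ =>
        (r2 _ a φ y).symm.trans ((congrArg φ (x i hi)).trans (r2 _ b φ y))
    have B : ∀ i, R (Iic i) a = R (Iic i) b := fun i => by
      induction i using WellFoundedLT.induction with
      | ind i ih =>
      refine (rr _ _ le_rfl a).symm.trans ((p2 i _ _ fun ψ hψ => ?_).trans (rr _ _ le_rfl b))
      simpa [A (Iio i) ih] using e _ (Or.inr (mem_iUnion.2 ⟨i, ψ, hψ, rfl⟩))
    simpa [R] using A univ fun i _ => B i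

end Pool.Agent.H.MP_5e5cb0
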