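import Pool.Agent.H.MP_5e5cb0.A

set_option autoImplicit false
open Set Function Topology Filter TopologicalSpace

namespace Pool.Agent.H.MP_5e5cb0

variable {X K β : Type} [TopologicalSpace X] [TopologicalSpace K] [CompactSpace K]
  [TopologicalSpace β]

lemma sep (v : β → C(X × K, ℝ)) (hv : ∀ p, Continuous fun b => v b p) (hi : Injective v) :
    ∃ G : Finset (β × ℚ) × ℕ → β → X → ℝ, (∀ i, Continuous (G i)) ∧
      (∀ i b, Continuous (G i b)) ∧ ∀ S, ∀ b ∈ closure S, ∀ c ∈ closure S, b ≠ c →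
        ∃ i, (∀ p ∈ i.1, p.1 ∈ S) ∧ G i b ≠ G i c := by
  classical
  obtain ⟨ρ, hρ⟩ := PartitionOfUnity.exists_isSubordinate
    (s := {w : C(K × K, ℝ) | ∀ k, w (k, k) = 0})
    (by simpa only [ofPred_forall] using isClosed_iInter fun k =>
      isClosed_eq (continuous_eval_const _) continuous_const)
    (fun D : Finset K => {w | ∀ k, ∃ d ∈ D, w (k, d) < 1}) (fun D => by
      have := isClosedMap_fst_of_compactSpace _ (isClosed_biInter (s := (D : Set K))
        fun d _ => isClosed_le (continuous_const (y := (1 : ℝ)))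
          (g := fun p : C(K × K, ℝ) × K => p.1 (p.2, d)) (by fun_prop))
      convert this.isOpen_compl
      ext w
      simp) fun w hw => by
      obtain ⟨D, hD⟩ := isCompact_univ.elim_finite_subcover (fun d => {k | w (k, d) < 1})
        (fun d => isOpen_lt (by fun_prop) continuous_const) fun k _ => mem_iUnion.2
          ⟨k, (hw k).trans_lt one_pos⟩
      exact mem_iUnion.2 ⟨D, fun k => by simpa using hD (mem_univ k)⟩
  let W : Finset (β × ℚ) × ℕ → C(X, C(K × K, ℝ)) := fun i => ContinuousMap.curry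
    ⟨fun p => i.2 * ∑ a ∈ i.1, |v a.1 (p.1, p.2.1) - v a.1 (p.1, p.2.2)|, by fun_prop⟩
  let u : Finset (β × ℚ) × ℕ → X → K → ℝ := fun i x d =>
    max 0 (2 - i.2 * ∑ a ∈ i.1, |v a.1 (x, d) - a.2|)
  let t := fun i b x (D : Finset K) => ∑ d ∈ D, u i x d * v b (x, d)
  have e : ∀ i b x, ∑ᶠ D, ρ D (W i x) * t i b x D =
      ∑ D ∈ ρ.finsupport (W i x), ρ D (W i x) * t i b x D := fun i b x =>
    (ρ.sum_finsupport_smul_eq_finsum fun D _ => t i b x D).symm
  refine ⟨fun i b x => ∑ᶠ D, ρ D (W i x) * t i b x D, fun i => continuous_pi fun x => ?_,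
    fun i b => continuous_finsum (fun D => by fun_prop) ((ρ.locallyFinite.preimage_continuous
      (W i).continuous).subset fun D x hx => left_ne_zero_of_mul hx), fun S b hb c hc h => ?_⟩
  · simp only [e]
    exact continuous_finsetSum _ fun D _ => continuous_const.mul (continuous_finsetSum _
      fun d _ => continuous_const.mul (hv _))
  replace h := DFunLike.ne_iff.1 (hi.ne h)
  obtain ⟨⟨x, k⟩, h⟩ := h
  wlog hl : v c (x, k) < v b (x, k) generalizing b c
  · exact (this c hc b hb h.symm (h.lt_or_gt.resolve_right hl)).imp fun i => And.imp_right Ne.symm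
  obtain ⟨T, hT⟩ := (isClosed_le (f := fun d => v b (x, d)) (g := fun d => v c (x, d))
    (by fun_prop) (by fun_prop)).isCompact.elim_finite_subcover
    (fun j : S × ℕ => {d | 3 < j.2 * |v j.1 (x, k) - v j.1 (x, d)|})
    (fun j => isOpen_lt continuous_const (by fun_prop)) fun d hd => by
      obtain ⟨a, a1, a2⟩ : ∃ a ∈ S, v a (x, k) ≠ v a (x, d) := by
        by_contra hn
        push Not at hn
        have := fun b hb => closure_minimal hn (isClosed_eq (hv _) (hv _)) (a := b) hb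
        exact hl.not_ge ((this b hb).trans_le (le_of_le_of_eq hd (this c hc).symm))
      have := abs_pos.2 (sub_ne_zero.2 a2)
      obtain ⟨m, hm⟩ := exists_nat_gt (3 / |v a (x, k) - v a (x, d)|)
      exact mem_iUnion.2 ⟨(⟨a, a1⟩, m), (div_lt_iff₀ this).1 hm⟩
  let F := T.image (·.1.1)
  let m := T.sup (·.2)
  choose q hq using fun a => exists_rat_near (v a (x, k))
    (show (0 : ℝ) < 1 / (m * F.card + 1) by positivity)
  let i := (F.image fun a => (a, q a), m)
  have s : ∀ f : β × ℚ → ℝ, ∑ a ∈ i.1, f a = ∑ a ∈ F, f (a, q a) := fun f =>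
    Finset.sum_image fun _ _ _ _ h => congrArg Prod.fst h
  have s1 : m * ∑ a ∈ F, |v a (x, k) - q a| ≤ 1 := by
    refine (mul_le_mul_of_nonneg_left (Finset.sum_le_card_nsmul _ _ _ fun a _ => (hq a).le)
      (Nat.cast_nonneg _)).trans ?_
    rw [nsmul_eq_mul, ← mul_assoc, mul_one_div, div_le_one (by positivity)]
    linarith
  have s2 : ∀ d, m * ∑ a ∈ F, |v a (x, d) - q a| ≤ 1 + m * ∑ a ∈ F, |v a (x, k) - v a (x, d)| ∧
      m * ∑ a ∈ F, |v a (x, k) - v a (x, d)| ≤ 1 + m * ∑ a ∈ F, |v a (x, d) - q a| := fun d => by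
    constructor
    all_goals
      refine le_trans ?_ (add_le_add_left s1 _)
      rw [← mul_add, ← Finset.sum_add_distrib]
      refine mul_le_mul_of_nonneg_left (Finset.sum_le_sum fun a _ => ?_) (Nat.cast_nonneg _)
      linarith [abs_sub_le (v a (x, d)) (v a (x, k)) (q a), abs_sub_comm (v a (x, d)) (v a (x, k)),
        abs_sub_le (v a (x, k)) (q a) (v a (x, d)), abs_sub_comm (v a (x, d)) (q a)]
  have s3 : ∀ d, u i x d * v c (x, d) ≤ u i x d * v b (x, d) ∧
      (0 < u i x d → u i x d * v c (x, d) < u i x d * v b (x, d)) := fun d => by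
    rcases lt_or_ge (v c (x, d)) (v b (x, d)) with h | h
    · exact ⟨mul_le_mul_of_nonneg_left h.le (le_max_left _ _), fun e => mul_lt_mul_of_pos_left h e⟩
    obtain ⟨j, j1, j2⟩ := mem_iUnion₂.1 (hT (a := d) h)
    have := lt_of_lt_of_le j2 (mul_le_mul (Nat.cast_le.2 (Finset.le_sup (f := (·.2)) j1))
      (Finset.single_le_sum (f := fun a => |v a (x, k) - v a (x, d)|) (fun _ _ => abs_nonneg _)
        (Finset.mem_image_of_mem (·.1.1) j1)) (abs_nonneg _) (Nat.cast_nonneg _))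
    have : u i x d = 0 := max_eq_left (by rw [s]; linarith [(s2 d).2])
    simp [this]
  refine ⟨i, fun a ha => ?_, fun h0 => ?_⟩
  · obtain ⟨a', ha', rfl⟩ := Finset.mem_image.1 ha
    obtain ⟨j, -, rfl⟩ := Finset.mem_image.1 ha'
    exact j.1.2
  obtain ⟨D, hD⟩ := ρ.exists_pos (x := W i x) fun k => by simp [W]
  obtain ⟨d, d1, d2⟩ := hρ D (subset_tsupport _ hD.ne') k
  refine (Finset.sum_lt_sum (f := fun D => ρ D (W i x) * t i c x D)
    (g := fun D => ρ D (W i x) * t i b x D) (fun D _ => mul_le_mul_of_nonneg_left (Finset.sum_le_sum fun d _ =>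
    (s3 d).1) (ρ.nonneg _ _)) ⟨D, (ρ.mem_finsupport _).2 hD.ne', mul_lt_mul_of_pos_left
      (Finset.sum_lt_sum (fun d _ => (s3 d).1) ⟨d, d1, (s3 d).2 (lt_max_of_lt_right ?_)⟩) hD⟩).ne'
    ((e i b x).symm.trans ((congrFun h0 x).trans (e i c x)))
  have : m * ∑ a ∈ i.1, |v a.1 (x, k) - v a.1 (x, d)| < 1 := d2
  rw [s] at this ⊢
  linarith [(s2 d).1]

lemma main [CompactSpace β] [T2Space β] (v : β → C(X × K, ℝ)) (hv : ∀ p, Continuous fun b => v b p)
    (hi : Injective v) (H : ∀ S : Set (X → ℝ), (∀ f ∈ S, Continuous f) → IsCompact S →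
        ∃ (Γ : Type) (e : S → (Γ → ℝ)), IsEmbedding e ∧ ∀ s, (support (e s)).Countable) :
    ∃ (Γ : Type) (e : β → Γ → ℝ), IsEmbedding e ∧ ∀ s, (support (e s)).Countable := by
  classical
  obtain ⟨G, g1, g2, g3⟩ := sep v hv hi
  choose Γ e e1 e2 using fun i => H _ (forall_mem_range.2 (g2 i)) (isCompact_range (g1 i))
  let φ : ∀ i, Γ i → C(β, ℝ) := fun i γ => ⟨fun b => e i ⟨G i b, b, rfl⟩ γ,
    (continuous_apply γ).comp ((e1 i).continuous.comp ((g1 i).subtype_mk _))⟩
  let h : Finset β → Set C(β, ℝ) := fun F => ⋃ i ∈ {s : Finset (β × ℚ) | ↑s ⊆ (F : Set β) ×ˢ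
    (univ : Set ℚ)} ×ˢ (univ : Set ℕ), ⋃ b ∈ (F : Set β), φ i '' support (e i ⟨G i b, b, rfl⟩)
  have hc : ∀ F, (h F).Countable := fun F => Set.Countable.biUnion ((fc (F.countable_toSet.prod
    countable_univ)).prod countable_univ) fun i _ => F.countable_toSet.biUnion
      fun b _ => (e2 i _).image _
  refine corson hc fun S a ha b hb h => by_contra fun hn => ?_
  obtain ⟨i, i1, i2⟩ := g3 S a ha b hb hn
  obtain ⟨γ, hγ⟩ := ne_iff.1 ((e1 i).injective.ne (a₁ := ⟨G i a, a, rfl⟩) (a₂ := ⟨G i b, b, rfl⟩)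
    fun h => i2 (congrArg Subtype.val h))
  obtain ⟨s, s1, s2⟩ : ∃ s ∈ S, φ i γ s ≠ 0 := by
    by_contra hc
    push Not at hc
    have := fun b hb => closure_minimal hc (isClosed_eq (φ i γ).continuous continuous_const)
      (a := b) hb
    exact hγ ((this a ha).trans (this b hb).symm)
  refine hγ (h (φ i γ) (mem_iUnion₂.2 ⟨insert s (i.1.image (·.1)), fun x hx => ?_, mem_iUnion₂.2
    ⟨i, ⟨fun p hp => ⟨Finset.mem_insert_of_mem (Finset.mem_image_of_mem _ hp), trivial⟩, trivial⟩,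
      mem_iUnion₂.2 ⟨s, Finset.mem_insert_self _ _, γ, s2, rfl⟩⟩⟩))
  rcases Finset.mem_insert.1 hx with rfl | hx
  · exact s1
  · obtain ⟨p, hp, rfl⟩ := Finset.mem_image.1 hx
    exact i1 p hp

end Pool.Agent.H.MP_5e5cb0
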